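import Pool.Agent.L0h63.AL.Dpr

/-!
# Project AL, part 3: module BGR
-/

set_option autoImplicit false
set_option linter.unusedSectionVars false

namespace Pool.Agent.L0h63.AL

open Pool.Agent.K7.H20.AW Pool.Agent.K7.H87.FJ6 Pool.Agent.L0h29.AL Pool.Agent.Helper741
open CoxeterSystem Pool.Agent.L0h55.AL

/-! ### certificates -/

section cert

variable {B : Type*} {M : CoxeterMatrix B}

/-- conjugation of a certificate -/
def cu (u : List (B × Bool)) (c : List (List (B × Bool) × B × B × Bool)) :
    List (List (B × Bool) × B × B × Bool) := c.map fun p => (u ++ p.1, p.2)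

theorem lval_cu (lab : B → B → ℕ) (u : List (B × Bool))
    (c : List (List (B × Bool) × B × B × Bool)) :
    lval M (exw lab (cu u c)) = lval M u * lval M (exw lab c) * (lval M u)⁻¹ := by
  induction c with
  | nil => simp [cu, exw, lval_nil]
  | cons p c ih =>
    have e : cu u (p :: c) = (u ++ p.1, p.2) :: cu u c := rfl
    rw [e, exw_cons, exw_cons, lval_append, ih, lval_append, lval_append, lval_append, lval_inw,
      lval_append, lval_append, lval_append, lval_inw]
    simp only [lval_append, mul_inv_rev]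
    group

/-- the inverse certificate -/
def ci (c : List (List (B × Bool) × B × B × Bool)) : List (List (B × Bool) × B × B × Bool) :=
  (c.map fun p => (p.1, p.2.1, p.2.2.1, !p.2.2.2)).reverse

theorem lval_ci (lab : B → B → ℕ) (c : List (List (B × Bool) × B × B × Bool)) :
    lval M (exw lab (ci c)) = (lval M (exw lab c))⁻¹ := by
  induction c with
  | nil => simp [ci, exw, lval_nil]
  | cons p c ih =>
    have e : ci (p :: c) = ci c ++ [(p.1, p.2.1, p.2.2.1, !p.2.2.2)] := by simp [ci]
    rw [e, exw_append, lval_append, ih, exw_cons, exw_cons]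
    have e2 : exw lab ([] : List (List (B × Bool) × B × B × Bool)) = [] := by simp [exw]
    rw [e2, lval_append, lval_append, lval_append, lval_append, lval_append, lval_append,
      lval_inw, lval_rw', lval_rw', lval_nil, mul_one]
    rcases p with ⟨u, i, j, b⟩
    cases b
    · simp [mul_assoc]
    · simp [mul_assoc]

theorem lval_free {w : List (B × Bool)} {l : List (List (B × Bool) × List (B × Bool) × Finset B)}
    (h : FreeGroup.mk w =
      (l.map fun p => FreeGroup.mk p.1 * FreeGroup.mk p.2.1 * (FreeGroup.mk p.1)⁻¹).prod) :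
    lval M w = (l.map fun p => lval M p.1 * lval M p.2.1 * (lval M p.1)⁻¹).prod := by
  have hξ : ∀ w : List (B × Bool), FreeGroup.lift (fun b => g M b) (FreeGroup.mk w) = lval M w := by
    intro w
    rw [FreeGroup.lift_mk, lval]
    congr 1
    apply List.map_congr_left
    intro a _
    rcases a with ⟨b, s⟩
    cases s <;> rfl
  have h1 := congrArg (FreeGroup.lift (fun b => g M b)) h
  rw [hξ, map_list_prod, List.map_map] at h1
  rw [h1]
  congr 1
  apply List.map_congr_left
  intro p _
  show FreeGroup.lift (fun b => g M b) (FreeGroup.mk p.1 * FreeGroup.mk p.2.1 *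
    (FreeGroup.mk p.1)⁻¹) = _
  rw [map_mul, map_mul, map_inv, hξ, hξ]

end cert

/-! ### the truncated matrix -/

section trunc

variable {n : ℕ} {M : CoxeterMatrix (Fin n)}

theorem ra_tr : ra (tr M) = ra M := by
  apply cox_ext
  intro i j
  rw [ra_apply, ra_apply, tr_apply]
  by_cases hij : i = j
  · rw [if_pos hij, if_pos hij]
  · rw [if_neg hij, if_neg hij, if_neg hij]
    split_ifs <;> first | rfl | omega

/-- only the entries whose label is not erased -/
def keep (M : CoxeterMatrix (Fin n)) (c : List (List (Fin n × Bool) × Fin n × Fin n × Bool)) :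
    List (List (Fin n × Bool) × Fin n × Fin n × Bool) :=
  c.filter fun p => decide (tr M p.2.1 p.2.2.1 = M p.2.1 p.2.2.1)

theorem lval_keep (M' : CoxeterMatrix (Fin n))
    (c : List (List (Fin n × Bool) × Fin n × Fin n × Bool)) :
    lval M' (exw (fun i j => M i j) (keep M c)) = lval M' (exw (fun i j => tr M i j) c) := by
  induction c with
  | nil => simp [keep, exw]
  | cons p c ih =>
    by_cases h : tr M p.2.1 p.2.2.1 = M p.2.1 p.2.2.1
    · have e : keep M (p :: c) = p :: keep M c := by
        unfold keep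
        rw [List.filter_cons_of_pos (by simpa using h)]
      rw [e, exw_cons, exw_cons, lval_append, ih, lval_append (M := M') (v := exw _ c), h]
    · have e : keep M (p :: c) = keep M c := by
        unfold keep
        rw [List.filter_cons_of_neg (by simpa using h)]
      have h0 : tr M p.2.1 p.2.2.1 = 0 := by
        rw [tr_apply] at h ⊢
        by_cases hij : p.2.1 = p.2.2.1
        · exfalso
          rw [if_pos hij, hij, M.diagonal] at h
          exact h rfl
        · rw [if_neg hij] at h ⊢
          split_ifs at h ⊢ with h1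
          · rfl
          · exact absurd rfl h
      rw [e, ih, exw_cons, h0, lval_append, lval_append, lval_append, lval_rw', lval_inw]
      simp [altProd]

end trunc

theorem le_ga (k n : ℕ) : n + 2 ≤ ga k n := by
  unfold ga
  have h1 : n + 2 ≤ 2 ^ (k + 1) * (n + 2) := Nat.le_mul_of_pos_left _ (by positivity)
  calc n + 2 ≤ 2 ^ (k + 1) * (n + 2) := h1
    _ = (2 ^ (k + 1) * (n + 2)) ^ 1 := (pow_one _).symm
    _ ≤ _ := Nat.pow_le_pow_right (by omega) (by omega)

theorem ga_mono {k n k' n' : ℕ} (hk : k ≤ k') (hn : n ≤ n') : ga k n ≤ ga k' n' := by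
  unfold ga
  have h1 : 2 ^ (k + 1) * (n + 2) ≤ 2 ^ (k' + 1) * (n' + 2) :=
    Nat.mul_le_mul (Nat.pow_le_pow_right (by omega) (by omega)) (by omega)
  calc (2 ^ (k + 1) * (n + 2)) ^ (k + 2) ≤ (2 ^ (k' + 1) * (n' + 2)) ^ (k + 2) :=
        Nat.pow_le_pow_left h1 _
    _ ≤ _ := Nat.pow_le_pow_right (by positivity) (by omega)

theorem qo_lval {n : ℕ} {M : CoxeterMatrix (Fin n)} (w : List (Fin n × Bool)) :
    qo (lval (ra M) w) = lval M w := by
  induction w with
  | nil => rw [lval_nil, lval_nil, map_one]
  | cons p w ih =>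
    rw [lval_cons, lval_cons, map_mul, ih]
    congr 1
    split_ifs
    · exact qo_g _
    · rw [map_inv, qo_g]

theorem bgr (hB : S_BIG) (hG : S_GPA.{0}) (hD : S_DPR.{0}) : S_BGR := by
  intro n M hPP w N hn hw hM
  constructor
  swap
  · rintro ⟨c, -, -, hc⟩
    have h1 := congrArg (qo (M := M)) hc
    rw [qo_lval, map_one, lval_append, lval_exw_one, mul_one] at h1
    exact h1
  intro hw1
  obtain ⟨c1, hc1, hc2, hc3⟩ := (hB n M w N hn hw hM).1 hw1
  set w1 := w ++ exw (fun i j => M i j) c1 with hw1def
  have hlen : w1.length ≤ n1 N := by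
    rw [hw1def, List.length_append]
    have h1 := length_exw (fun i j => M i j) N (ps N) hM c1 hc2
    have h2 : c1.length * (2 * ps N + 2 * N) ≤ ps N * (2 * ps N + 2 * N) :=
      Nat.mul_le_mul_right _ hc1
    show _ ≤ N + ps N * (2 * ps N + 2 * N)
    omega
  have hN1 : N ≤ n1 N := Nat.le_add_right _ _
  obtain ⟨c2, hd1, hd2, hd3⟩ := hG (Fin n) (tr M) w1 hc3
  rw [Fintype.card_fin] at hd1 hd2
  set N2 := ga (n1 N) (n1 N) with hN2
  have hga : ga n w1.length ≤ N2 := ga_mono (hn.trans hN1) hlen
  have hNN : N + 2 ≤ N2 := (Nat.add_le_add_right hN1 2).trans (le_ga (n1 N) (n1 N))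
  have htrN : ∀ i j, tr M i j ≤ N2 := by
    intro i j
    have := hM i j
    rw [tr_apply]
    split_ifs <;> omega
  -- certificates of the pieces
  have hpiece : ∀ p ∈ c2, ∃ c : List (List (Fin n × Bool) × Fin n × Fin n × Bool),
      c.length ≤ Pool.Agent.L0h29.AL.dq N2 ∧
      (∀ q ∈ c, q.1.length ≤ Pool.Agent.L0h29.AL.dq N2) ∧
      lval (ra M) p.2.1 = lval (ra M) (exw (fun i j => M i j) c) := by
    intro p hp
    obtain ⟨-, h2, h3, h4, h5⟩ := hd2 p hp
    have htr : ∀ i ∈ p.2.2, ∀ j ∈ p.2.2, i ≠ j → tr M i j = M i j ∧ M i j ≠ 0 ∧ M i j < 100 := by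
      intro i hi j hj hij
      have h6 := h3 i hi j hj
      rw [tr_apply, if_neg hij] at h6 ⊢
      split_ifs at h6 ⊢ with h7
      · exact absurd rfl h6
      · exact ⟨rfl, h6, by omega⟩
    obtain ⟨c, hc4, hc5, hc6⟩ := hD (Fin n) (tr M) p.2.2 N2 htrN h3 (by
      intro i hi j hj k hk hij hjk hik
      obtain ⟨e1, f1⟩ := htr i hi j hj hij
      obtain ⟨e2, f2⟩ := htr j hj k hk hjk
      obtain ⟨e3, f3⟩ := htr i hi k hk hik
      rw [e1, e2, e3]
      exact hPP i j k hij hjk hik f1 f2 f3) p.2.1 (h2.trans hga) h4 h5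
    refine ⟨keep M c, (List.length_filter_le _ _).trans hc4,
      fun q hq => hc5 q (List.mem_filter.1 hq).1, ?_⟩
    rw [lval_keep]
    rw [ra_tr] at hc6
    exact hc6
  choose! C hC1 hC2 hC3 using hpiece
  -- gluing
  have hglue : ∀ l : List (List (Fin n × Bool) × List (Fin n × Bool) × Finset (Fin n)),
      (∀ p ∈ l, p ∈ c2) → ∃ c : List (List (Fin n × Bool) × Fin n × Fin n × Bool),
      c.length ≤ l.length * Pool.Agent.L0h29.AL.dq N2 ∧
      (∀ q ∈ c, q.1.length ≤ N2 + Pool.Agent.L0h29.AL.dq N2) ∧
      (l.map fun p => lval (ra M) p.1 * lval (ra M) p.2.1 * (lval (ra M) p.1)⁻¹).prod =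
        lval (ra M) (exw (fun i j => M i j) c) := by
    intro l
    induction l with
    | nil => exact fun _ => ⟨[], by simp, by simp, by simp [exw, lval_nil]⟩
    | cons p l ih =>
      intro hl
      obtain ⟨c, e1, e2, e3⟩ := ih fun q hq => hl q (by simp [hq])
      have hp := hl p (by simp)
      refine ⟨cu p.1 (C p) ++ c, ?_, ?_, ?_⟩
      · rw [List.length_append, List.length_cons, add_mul, one_mul]
        have : (cu p.1 (C p)).length = (C p).length := by simp [cu]
        rw [this]
        have := hC1 p hp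
        omega
      · intro q hq
        rcases List.mem_append.1 hq with h | h
        · obtain ⟨q', hq', rfl⟩ := List.mem_map.1 h
          show (p.1 ++ q'.1).length ≤ _
          rw [List.length_append]
          have h1 := hC2 p hp q' hq'
          have h2 := (hd2 p hp).1.trans hga
          omega
        · exact e2 q h
      · rw [List.map_cons, List.prod_cons, e3, exw_append, lval_append, lval_cu, hC3 p hp]
  obtain ⟨c3, e1, e2, e3⟩ := hglue c2 fun _ h => h
  have e4 : c3.length ≤ N2 * Pool.Agent.L0h29.AL.dq N2 :=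
    e1.trans (Nat.mul_le_mul_right _ (hd1.trans hga))
  have hth : th N = (N2 + 2) * (Pool.Agent.L0h29.AL.dq N2 + 2) + ps N := rfl
  refine ⟨c1 ++ ci c3, ?_, ?_, ?_⟩
  · rw [List.length_append]
    have : (ci c3).length = c3.length := by simp [ci]
    rw [this, hth]
    nlinarith
  · intro q hq
    rw [hth]
    rcases List.mem_append.1 hq with h | h
    · have := hc2 q h
      omega
    · unfold ci at h
      rw [List.mem_reverse] at h
      obtain ⟨q', hq', rfl⟩ := List.mem_map.1 h
      have := e2 q' hq'
      show q'.1.length ≤ _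
      nlinarith
  · rw [exw_append, ← List.append_assoc, lval_append, lval_ci, ← e3, ← lval_free hd3]
    exact mul_inv_cancel _

end Pool.Agent.L0h63.AL
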