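import Pool.Agent.L0h29.AL.ArtDefs4
import Pool.Agent.L0h68.AL.Cug

/-!
# Project AL, part 3: module CUR
-/

set_option autoImplicit false

namespace Pool.Agent.L0h63.AL

open Pool.Agent.K7.H20.AW Pool.Agent.L0h29.AL Pool.Agent.L0h68.AL

/-- all entries `≠ 2` are replaced by `0` (infinity) -/
def raL (L : List (List ℕ)) : List (List ℕ) := L.map fun row => row.map fun a => if a = 2 then 2 else 0

theorem lb_raL (L : List (List ℕ)) (i j : ℕ) :
    lb (raL L) i j = if lb L i j = 2 then 2 else 0 := by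
  have h1 : (raL L).getD (min i j) [] = (L.getD (min i j) []).map
      fun a => if a = 2 then 2 else 0 :=
    List.getD_map L [] (fun row : List ℕ => row.map fun a => if a = 2 then 2 else 0)
  rw [lb, h1, lb]
  exact List.getD_map _ 0 (fun a : ℕ => if a = 2 then 2 else 0)

theorem mat_ra (n : ℕ) (L : List (List ℕ)) : mat n (raL L) = ra (mat n L) := by
  ext i j
  show mat n (raL L) i j = (if i = j then 1 else if mat n L i j = 2 then 2 else 0)
  rw [mat_apply, mat_apply, lb_raL]
  by_cases h : i = j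
  · rw [if_pos h, if_pos h]
  · rw [if_neg h, if_neg h, if_neg h]
    split_ifs <;> omega

theorem mat_raL_le (n : ℕ) (L : List (List ℕ)) (i j : Fin n) : mat n (raL L) i j ≤ 2 := by
  rw [mat_apply, lb_raL]
  split_ifs <;> omega

theorem th_ge (N : ℕ) : N ≤ th N := (ps_ge N).trans (Nat.le_add_left _ _)

theorem key' (hB : S_BGR) (n : ℕ) (L : List (List ℕ)) (hPP : PP (mat n L)) (w : List (ℕ × Bool))
    (N : ℕ) (hn : n ≤ N) (hw : w.length ≤ N) (hM : ∀ i j, mat n L i j ≤ N) :
    nval (mat n L) w = 1 ↔ ∃ c : List (List (ℕ × Bool) × ℕ × ℕ × Bool), (c.length ≤ th N ∧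
      ∀ p ∈ c, (p.1.length ≤ th N ∧ ∀ a ∈ p.1, a.1 ≤ th N) ∧ p.2.1 ≤ th N ∧ p.2.2.1 ≤ th N) ∧
      nval (mat n (raL L)) (w ++ exw (labN n L) c) = 1 := by
  have hps := th_ge N
  have hlt : ∀ i : Fin n, i.val ≤ th N := fun i => by have := i.2; omega
  rw [nval_iff, ← wv_fl]
  have h1 := hB n (mat n L) hPP (fl n w) N hn ((fl_length n w).trans hw) hM
  change wv (g (mat n L)) (fl n w) = 1 ↔ _ at h1
  rw [h1, mat_ra]
  constructor
  · rintro ⟨c, hc1, hc2, hc3⟩
    refine ⟨upc c, ⟨?_, ?_⟩, ?_⟩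
    · rw [upc, List.length_map]; exact hc1
    · intro p hp
      obtain ⟨q, hq, rfl⟩ := List.mem_map.1 hp
      refine ⟨⟨?_, ?_⟩, hlt _, hlt _⟩
      · rw [List.length_map]; exact hc2 q hq
      · intro a ha
        obtain ⟨b, _, rfl⟩ := List.mem_map.1 ha
        exact hlt _
    · rw [nval_iff, wv_append, wv_upc, ← wv_fl, ← wv_append]
      exact hc3
  · rintro ⟨c, ⟨hc1, hc2⟩, hc3⟩
    refine ⟨flc n c, (flc_length n c).trans hc1, flc_mem n fun p hp => (hc2 p hp).1.1, ?_⟩
    rw [nval_iff, wv_append, ← wv_flc, ← wv_fl, ← wv_append] at hc3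
    exact hc3

theorem prim_raL : Primrec raL := by
  have h1 : Primrec₂ fun (_ : List (List ℕ) × List ℕ) (a : ℕ) => if a = 2 then 2 else 0 :=
    Primrec.ite (Primrec.eq.comp Primrec.snd (Primrec.const 2)) (Primrec.const 2)
      (Primrec.const 0)
  have h2 : Primrec₂ fun (_ : List (List ℕ)) (row : List ℕ) =>
      row.map fun a => if a = 2 then 2 else 0 := Primrec.list_map Primrec.snd h1
  exact Primrec.list_map Primrec.id h2

/-- CUR -/
theorem cur (hB : S_BGR) (hP : S_CPT) (hR : S_RAC) (hX : S_CEX) (hS : S_CLS) : S_CUR := by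
  obtain ⟨f0, hf0, hf0'⟩ := hR
  have hr : Primrec fun K : ℕ => List.range (K + 1) := Primrec.list_range.comp Primrec.succ
  obtain ⟨E1, hE1, hE1'⟩ := hS (ℕ × Bool) (fun K => (List.range (K + 1)).product [true, false])
    (prim_product hr (Primrec.const _))
  obtain ⟨E2, hE2, hE2'⟩ := hS (List (ℕ × Bool) × ℕ × ℕ × Bool)
    (fun K => (E1 K).product ((List.range (K + 1)).product
      ((List.range (K + 1)).product [true, false])))
    (prim_product hE1 (prim_product hr (prim_product hr (Primrec.const _))))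
  have hmem : ∀ K c, c ∈ E2 K ↔ (c.length ≤ K ∧
      ∀ p ∈ c, (p.1.length ≤ K ∧ ∀ a ∈ p.1, a.1 ≤ K) ∧ p.2.1 ≤ K ∧ p.2.2.1 ≤ K) := by
    intro K c
    rw [hE2']
    refine and_congr Iff.rfl (forall₂_congr fun p _ => ?_)
    obtain ⟨u, i, j, b⟩ := p
    rw [List.pair_mem_product, List.pair_mem_product, List.pair_mem_product, hE1',
      List.mem_range, List.mem_range]
    have h1 : b ∈ [true, false] := by cases b <;> simp
    have h2 : (∀ a ∈ u, a ∈ (List.range (K + 1)).product [true, false]) ↔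
        ∀ a ∈ u, a.1 ≤ K := by
      refine forall₂_congr fun a _ => ?_
      obtain ⟨a, b'⟩ := a
      rw [List.pair_mem_product, List.mem_range]
      have h1 : b' ∈ [true, false] := by cases b' <;> simp
      simp only [h1, and_true]
      omega
    rw [h2]
    simp only [h1, and_true, Nat.lt_succ_iff]
  refine ⟨fun x => (E2 (th (nb x))).any fun c =>
    f0 (x.1, raL x.2.1, x.2.2 ++ exw (labN x.1 x.2.1) c), ?_, ?_⟩
  · refine hX _ _ (fun x : ℕ × List (List ℕ) × List (ℕ × Bool) => E2 (th (nb x)))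
      (fun x c => f0 (x.1, raL x.2.1, x.2.2 ++ exw (labN x.1 x.2.1) c)) ?_ ?_
    · exact (hE2.comp (hP.comp prim_nb)).to_comp
    · have h1 : Primrec fun z : (ℕ × List (List ℕ) × List (ℕ × Bool)) ×
          List (List (ℕ × Bool) × ℕ × ℕ × Bool) =>
          (z.1.1, raL z.1.2.1, z.1.2.2 ++ exw (labN z.1.1 z.1.2.1) z.2) :=
        Primrec.pair (Primrec.fst.comp Primrec.fst)
          (Primrec.pair (prim_raL.comp (Primrec.fst.comp (Primrec.snd.comp Primrec.fst)))
            (Primrec.list_append.comp (Primrec.snd.comp (Primrec.snd.comp Primrec.fst))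
              (prim_exw (Primrec.fst.comp Primrec.fst)
                (Primrec.fst.comp (Primrec.snd.comp Primrec.fst)) Primrec.snd)))
      exact hf0.comp h1.to_comp
  · intro n L hPP w
    have hk := key' hB n L hPP w (nb (n, L, w)) (by simp only [nb]; omega)
      (by simp only [nb]; omega) (fun i j => (mat_le n L i j).trans (by simp only [nb]; omega))
    show ((E2 (th (nb (n, L, w)))).any fun c => f0 (n, raL L, w ++ exw (labN n L) c)) = true ↔
      nval (mat n L) w = 1
    rw [hk, List.any_eq_true]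
    refine exists_congr fun c => ?_
    rw [hmem, hf0' n (raL L) (mat_raL_le n L)]
    rfl

end Pool.Agent.L0h63.AL
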