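import Pool.Agent.L0h29.AL.ArtDefs4
import Pool.Agent.L0h55.AL.Big

/-!
# Project AL, part 3: module DPR (products of dihedral Artin groups)
-/

set_option autoImplicit false
set_option linter.unusedSectionVars false

namespace Pool.Agent.L0h63.AL

open Pool.Agent.K7.H20.AW Pool.Agent.K7.H87.FJ6 Pool.Agent.L0h29.AL Pool.Agent.Helper741
open CoxeterSystem Pool.Agent.L0h55.AL

universe u

/-! ### filtering words -/

section filt

variable {B : Type u} {M : CoxeterMatrix B}

/-- a letter commutes with the value of a word whose letters commute with it -/
theorem gen_comm (b : B) (w : List (B × Bool)) (h : ∀ a ∈ w, M a.1 b = 2) :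
    Commute (g M b) (lval M w) := by
  induction w with
  | nil => rw [lval_nil]; exact Commute.one_right _
  | cons a w ih =>
    rw [lval_cons]
    have h1 : Commute (g M b) (g M a.1) := by
      have := h a (by simp)
      exact (comm_gen this).symm
    refine Commute.mul_right ?_ (ih fun x hx => h x (by simp [hx]))
    split_ifs
    · exact h1
    · exact h1.inv_right

/-- splitting of a word into two commuting parts -/
theorem lval_split (p : B → Bool) (w : List (B × Bool))
    (h : ∀ a ∈ w, ∀ b ∈ w, p a.1 = true → p b.1 = false → M a.1 b.1 = 2) :
    lval M w = lval M (w.filter fun a => p a.1) * lval M (w.filter fun a => !p a.1) := by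
  induction w with
  | nil => simp [lval_nil]
  | cons a w ih =>
    have ih' := ih fun x hx y hy => h x (by simp [hx]) y (by simp [hy])
    by_cases ha : p a.1 = true
    · rw [List.filter_cons_of_pos (by simpa using ha), List.filter_cons_of_neg (by simp [ha]),
        lval_cons, lval_cons, ih', mul_assoc]
    · have ha' : p a.1 = false := by simpa using ha
      rw [List.filter_cons_of_neg (by simp [ha']), List.filter_cons_of_pos (by simp [ha']),
        lval_cons, lval_cons, ih']
      have h1 : Commute (g M a.1) (lval M (w.filter fun a => p a.1)) := by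
        apply gen_comm
        intro x hx
        have hx' := List.mem_filter.1 hx
        exact h x (by simp [hx'.1]) a (by simp) hx'.2 ha'
      have h2 : Commute (if a.2 then g M a.1 else (g M a.1)⁻¹)
          (lval M (w.filter fun a => p a.1)) := by
        split_ifs
        · exact h1
        · exact h1.inv_left
      rw [← mul_assoc, h2.eq, mul_assoc]

/-- killing the generators outside `p` -/
theorem lval_kill [DecidableEq B] (X : Finset B) (p : B → Bool)
    (h : ∀ a ∈ X, ∀ b ∈ X, p a = true → p b = false → M a b = 2) (w : List (B × Bool))
    (hw : lval (cl M X) w = 1) : lval (cl M X) (w.filter fun a => p a.1) = 1 := by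
  have hcl : ∀ i j, p i = true → p j = false → cl M X i j = 2 := by
    intro i j hi hj
    have hij : i ≠ j := by
      rintro rfl
      rw [hi] at hj
      exact absurd hj (by simp)
    show (if i = j then 1 else if i ∈ X ∧ j ∈ X then M i j else 2) = 2
    rw [if_neg hij]
    split_ifs with hX
    · exact h i hX.1 j hX.2 hi hj
    · rfl
  have hrel : ∀ i j, alt (if p i then g (cl M X) i else 1) (if p j then g (cl M X) j else 1)
      (cl M X i j) = alt (if p j then g (cl M X) j else 1) (if p i then g (cl M X) i else 1)
      (cl M X i j) := by
    intro i j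
    cases hi : p i <;> cases hj : p j
    · simp
    · rw [(cl M X).symmetric i j, hcl j i hj hi, alt_two, alt_two]
      simp
    · rw [hcl i j hi hj, alt_two, alt_two]
      simp
    · simp only [if_true]
      exact Sh.rel i j
  let φ : Art (cl M X) →* Art (cl M X) :=
    Sh.lift (fun b => if p b then g (cl M X) b else 1) hrel (fun _ => pow_zero _)
  have hφ : ∀ b, φ (g (cl M X) b) = if p b then g (cl M X) b else 1 := fun b => Sh.lift_gen _ _ _ _
  have key : ∀ w : List (B × Bool), φ (lval (cl M X) w) =
      lval (cl M X) (w.filter fun a => p a.1) := by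
    intro w
    induction w with
    | nil => rw [lval_nil, map_one]; simp [lval_nil]
    | cons a w ih =>
      rw [lval_cons, map_mul, ih]
      cases ha : p a.1
      · rw [List.filter_cons_of_neg (by simp [ha])]
        have : φ (if a.2 then g (cl M X) a.1 else (g (cl M X) a.1)⁻¹) = 1 := by
          split_ifs
          · rw [hφ, ha]; simp
          · rw [map_inv, hφ, ha]; simp
        rw [this, one_mul]
      · rw [List.filter_cons_of_pos (by simp [ha]), lval_cons]
        congr 1
        split_ifs
        · rw [hφ, ha]; simp
        · rw [map_inv, hφ, ha]; simp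
  rw [← key, hw, map_one]

end filt

/-! ### words in one letter -/

section one

variable {B : Type u}

/-- exponent sum -/
def esum (w : List (B × Bool)) : ℤ := (w.map fun a => if a.2 then (1 : ℤ) else -1).sum

theorem lval_one (M : CoxeterMatrix B) (i : B) (w : List (B × Bool)) (h : ∀ a ∈ w, a.1 = i) :
    lval M w = g M i ^ esum w := by
  induction w with
  | nil => simp [lval_nil, esum]
  | cons a w ih =>
    rw [lval_cons, ih fun x hx => h x (by simp [hx]), h a (by simp)]
    have : esum (a :: w) = (if a.2 then (1 : ℤ) else -1) + esum w := by simp [esum]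
    rw [this, zpow_add]
    congr 1
    split_ifs <;> simp

theorem one_case (M M' : CoxeterMatrix B) (i : B) (w : List (B × Bool)) (h : ∀ a ∈ w, a.1 = i)
    (hw : lval M w = 1) : lval M' w = 1 := by
  rw [lval_one M i w h] at hw
  have h1 := congrArg (len (M := M)) hw
  rw [len_g, map_one] at h1
  have h2 : esum w = 0 := by
    have := congrArg Multiplicative.toAdd h1
    simpa using this
  rw [lval_one M' i w h, h2, zpow_zero]

end one

/-! ### words in two letters -/

section two

variable {B : Type u} [Fintype B] [DecidableEq B] {M : CoxeterMatrix B}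

/-- the two letters -/
def io (i j : B) (b : Bool) : B := if b then i else j

theorem io_inj {i j : B} (h : i ≠ j) : Function.Injective (io i j) := by
  intro a b hab
  cases a <;> cases b <;> simp_all [io]

theorem map_altProd {G H : Type*} [Group G] [Group H] (φ : G →* H) (m : ℕ) :
    ∀ a b : G, φ (altProd m a b) = altProd m (φ a) (φ b) := by
  induction m with
  | zero => intro a b; simp [altProd]
  | succ m ih => intro a b; rw [altProd, map_mul, ih, altProd]

/-- relations of the dihedral Artin group as words in `Bool` -/
theorem mem_of_pull {i j : B} (hij : i ≠ j) (w : List (Bool × Bool))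
    (h : lval M (w.map fun a => (io i j a.1, a.2)) = 1) :
    FreeGroup.mk w ∈ Subgroup.normalClosure {rm (M i j)} := by
  set N' := pull M (io i j) (io_inj hij) with hN'
  have h1 : ∀ w : List (Bool × Bool), inc M (z0 B) (io i j) (io_inj hij) (lval N' w) =
      lval M (w.map fun a => (io i j a.1, a.2)) := by
    intro w
    induction w with
    | nil => rw [lval_nil, map_one, List.map_nil, lval_nil]
    | cons a w ih =>
      rw [lval_cons, List.map_cons, lval_cons, map_mul, ih]
      congr 1
      have h3 : inc M (z0 B) (io i j) (io_inj hij) (g N' a.1) = g M (io i j a.1) :=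
        inc_gen M (z0 B) (io i j) (io_inj hij) a.1
      split_ifs
      · exact h3
      · rw [map_inv]
        exact congrArg _ h3
  have h2 : lval N' w = 1 := by
    apply inc_injective (adm0 M) (io i j) (io_inj hij)
    rw [map_one]
    rw [← h]
    exact h1 w
  let R : Subgroup (FreeGroup Bool) := Subgroup.normalClosure {rm (M i j)}
  let q : FreeGroup Bool →* FreeGroup Bool ⧸ R := QuotientGroup.mk' R
  have hq : altProd (M i j) (q (FreeGroup.of true)) (q (FreeGroup.of false)) =
      altProd (M i j) (q (FreeGroup.of false)) (q (FreeGroup.of true)) := by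
    rw [← map_altProd, ← map_altProd]
    have h4 : q (rm (M i j)) = 1 :=
      (QuotientGroup.eq_one_iff _).2 (Subgroup.subset_normalClosure (Set.mem_singleton _))
    have h5 : q (altProd (M i j) (FreeGroup.of true) (FreeGroup.of false) *
      (altProd (M i j) (FreeGroup.of false) (FreeGroup.of true))⁻¹) = 1 := h4
    rw [map_mul, map_inv, mul_inv_eq_one] at h5
    exact h5
  have hrel : ∀ a b, alt (q (FreeGroup.of a)) (q (FreeGroup.of b)) (N' a b) =
      alt (q (FreeGroup.of b)) (q (FreeGroup.of a)) (N' a b) := by
    intro a b
    have hs : M j i = M i j := M.symmetric j i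
    cases a <;> cases b
    · rfl
    · show alt _ _ (M (io i j false) (io i j true)) = alt _ _ (M (io i j false) (io i j true))
      have : M (io i j false) (io i j true) = M i j := by simpa [io] using hs
      rw [this, ← altProd_eq, ← altProd_eq]
      exact hq.symm
    · show alt _ _ (M (io i j true) (io i j false)) = alt _ _ (M (io i j true) (io i j false))
      have : M (io i j true) (io i j false) = M i j := by simp [io]
      rw [this, ← altProd_eq, ← altProd_eq]
      exact hq
    · rfl
  let θ : Art N' →* FreeGroup Bool ⧸ R :=
    Sh.lift (fun b => q (FreeGroup.of b)) hrel (fun _ => pow_zero _)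
  have hθ : ∀ b, θ (g N' b) = q (FreeGroup.of b) := fun b => Sh.lift_gen _ _ _ _
  have key : ∀ w : List (Bool × Bool), θ (lval N' w) = q (FreeGroup.mk w) := by
    intro w
    induction w with
    | nil => rw [lval_nil, map_one]; exact (map_one q).symm
    | cons a w ih =>
      have e : FreeGroup.mk (a :: w) = FreeGroup.mk [a] * FreeGroup.mk w := by
        rw [FreeGroup.mul_mk]; rfl
      rw [lval_cons, map_mul, ih, e, map_mul]
      congr 1
      rcases a with ⟨b, s⟩
      cases s
      · show θ (g N' b)⁻¹ = _
        rw [map_inv, hθ, ← map_inv]
        simp [FreeGroup.of, FreeGroup.inv_mk, FreeGroup.invRev]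
      · exact hθ b
  have h5 := key w
  rw [h2, map_one] at h5
  exact (QuotientGroup.eq_one_iff _).1 h5.symm

theorem two_case (hD : S_DAR) {i j : B} (hij : i ≠ j) (N : ℕ) (hm : 2 ≤ M i j) (hN : M i j ≤ N)
    (M' : CoxeterMatrix B) (w : List (B × Bool)) (hw : w.length ≤ N)
    (hl : ∀ a ∈ w, a.1 = i ∨ a.1 = j) (h : lval M w = 1) :
    ∃ c : List (List (B × Bool) × B × B × Bool), c.length ≤ bd N N ∧
      (∀ p ∈ c, p.1.length ≤ bd N N) ∧ lval M' w = lval M' (exw (fun i j => M i j) c) := by
  set w' : List (Bool × Bool) := w.map fun a => (decide (a.1 = i), a.2) with hw'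
  have hback : (w'.map fun a => (io i j a.1, a.2)) = w := by
    rw [hw', List.map_map]
    conv_rhs => rw [← List.map_id w]
    apply List.map_congr_left
    intro a ha
    rcases a with ⟨b, s⟩
    show (io i j (decide (b = i)), s) = (b, s)
    congr 1
    rcases hl _ ha with h1 | h1
    · simp only at h1
      subst h1; simp [io]
    · simp only at h1
      subst h1; simp [io, hij.symm]
  have h1 : FreeGroup.mk w' ∈ Subgroup.normalClosure {rm (M i j)} :=
    mem_of_pull hij w' (by rw [hback]; exact h)
  obtain ⟨c, hc1, hc2, hc3⟩ := hD (M i j) w.length hm w' (by simp [hw']) h1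
  have hbd : bd (M i j) w.length ≤ bd N N := by
    unfold bd
    exact Nat.mul_le_mul (by omega) (Nat.pow_le_pow_left (by omega) 3)
  refine ⟨c.map fun p => (p.1.map fun a => (io i j a.1, a.2), i, j, p.2), ?_, ?_, ?_⟩
  · rw [List.length_map]; exact hc1.trans hbd
  · intro p hp
    obtain ⟨q, hq, rfl⟩ := List.mem_map.1 hp
    show (q.1.map _).length ≤ _
    rw [List.length_map]
    exact (hc2 q hq).trans hbd
  · let ξ : FreeGroup Bool →* Art M' := FreeGroup.lift fun b => g M' (io i j b)
    have hξ : ∀ w : List (Bool × Bool), ξ (FreeGroup.mk w) =
        lval M' (w.map fun a => (io i j a.1, a.2)) := by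
      intro w
      show FreeGroup.lift _ (FreeGroup.mk w) = _
      rw [FreeGroup.lift_mk, lval, List.map_map]
      congr 1
      apply List.map_congr_left
      intro a _
      rcases a with ⟨b, s⟩
      cases s <;> rfl
    have hξr : ξ (rm (M i j)) = altProd (M i j) (g M' i) (g M' j) *
        (altProd (M i j) (g M' j) (g M' i))⁻¹ := by
      rw [rm, map_mul, map_inv, map_altProd, map_altProd]
      have e1 : ξ (FreeGroup.of true) = g M' i := by
        show FreeGroup.lift _ (FreeGroup.of true) = _
        rw [FreeGroup.lift_apply_of]; rfl
      have e2 : ξ (FreeGroup.of false) = g M' j := by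
        show FreeGroup.lift _ (FreeGroup.of false) = _
        rw [FreeGroup.lift_apply_of]; rfl
      rw [e1, e2]
    have hc : ∀ c : List (List (Bool × Bool) × Bool),
        ξ (cj (rm (M i j)) (c.map fun p => (FreeGroup.mk p.1, p.2))) =
        lval M' (exw (fun i j => M i j)
          (c.map fun p => (p.1.map fun a => (io i j a.1, a.2), i, j, p.2))) := by
      intro c
      induction c with
      | nil => simp [cj, exw, lval_nil]
      | cons p c ih =>
        have e : cj (rm (M i j)) ((p :: c).map fun p => (FreeGroup.mk p.1, p.2)) =
            FreeGroup.mk p.1 * (if p.2 then rm (M i j) else (rm (M i j))⁻¹) *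
              (FreeGroup.mk p.1)⁻¹ * cj (rm (M i j)) (c.map fun p => (FreeGroup.mk p.1, p.2)) := by
          simp [cj]
        rw [e, map_mul, ih, List.map_cons, exw_cons, lval_append, lval_append, lval_append,
          lval_inw, lval_rw', map_mul, map_mul, map_inv, hξ]
        congr 3
        simp only
        split_ifs
        · exact hξr
        · rw [map_inv, hξr]
    rw [← hc, ← hc3, hξ, hback]

end two

/-! ### the theorem -/

theorem dpr (hX : S_CLX.{u}) (hD : S_DAR) : S_DPR.{u} := by
  intro B _ _ M X N hM hfin htri
  have main : ∀ k : ℕ, ∀ r : List (B × Bool), r.length ≤ k → r.length ≤ N → (∀ a ∈ r, a.1 ∈ X) →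
      lval M r = 1 → ∃ c : List (List (B × Bool) × B × B × Bool), c.length ≤ r.length * bd N N ∧
        (∀ p ∈ c, p.1.length ≤ bd N N) ∧
        lval (ra M) r = lval (ra M) (exw (fun i j => M i j) c) := by
    intro k
    induction k with
    | zero =>
      intro r hr _ _ _
      have : r = [] := List.length_eq_zero_iff.1 (by omega)
      subst this
      exact ⟨[], by simp, by simp, by simp [exw]⟩
    | succ k ih =>
      intro r hr hN hrX hr1
      rcases r with _ | ⟨a, t⟩
      · exact ⟨[], by simp, by simp, by simp [exw]⟩
      set r : List (B × Bool) := a :: t with hrdef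
      have haX : a.1 ∈ X := hrX a (by simp [hrdef])
      -- general step
      have step : ∀ p : B → Bool, (∀ x ∈ X, ∀ y ∈ X, p x = true → p y = false → M x y = 2) →
          p a.1 = true →
          (lval M (r.filter fun a => p a.1) = 1 →
            ∃ c : List (List (B × Bool) × B × B × Bool), c.length ≤ bd N N ∧
            (∀ q ∈ c, q.1.length ≤ bd N N) ∧ lval (ra M) (r.filter fun a => p a.1) =
              lval (ra M) (exw (fun i j => M i j) c)) →
          ∃ c : List (List (B × Bool) × B × B × Bool), c.length ≤ r.length * bd N N ∧
            (∀ p ∈ c, p.1.length ≤ bd N N) ∧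
            lval (ra M) r = lval (ra M) (exw (fun i j => M i j) c) := by
        intro p hp hpa hK
        have hcl1 : lval (cl M X) r = 1 := (hX B M X r hrX).1 hr1
        have h1 : lval M (r.filter fun a => p a.1) = 1 :=
          (hX B M X _ (fun x hx => hrX x (List.mem_filter.1 hx).1)).2 (lval_kill X p hp r hcl1)
        have h2 : lval M (r.filter fun a => !p a.1) = 1 := by
          refine (hX B M X _ (fun x hx => hrX x (List.mem_filter.1 hx).1)).2
            (lval_kill X (fun b => !p b) ?_ r hcl1)
          intro x hx y hy h3 h4
          rw [M.symmetric]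
          exact hp y hy x hx (by simpa using h4) (by simpa using h3)
        obtain ⟨c1, hc1, hc2, hc3⟩ := hK h1
        have hlen : (r.filter fun a => !p a.1).length ≤ t.length := by
          rw [hrdef, List.filter_cons_of_neg (by simp [hpa])]
          exact List.length_filter_le _ _
        have hrl : r.length = t.length + 1 := by rw [hrdef]; rfl
        obtain ⟨c2, hd1, hd2, hd3⟩ := ih (r.filter fun a => !p a.1) (by omega) (by omega)
          (fun x hx => hrX x (List.mem_filter.1 hx).1) h2
        refine ⟨c1 ++ c2, ?_, ?_, ?_⟩
        · rw [List.length_append, hrl, add_mul, one_mul]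
          have := Nat.mul_le_mul_right (bd N N) hlen
          omega
        · intro q hq
          rcases List.mem_append.1 hq with h | h
          · exact hc2 q h
          · exact hd2 q h
        · rw [exw_append, lval_append, ← hc3, ← hd3]
          apply lval_split
          intro x hx y hy h3 h4
          have hxy : x.1 ≠ y.1 := by
            intro h; rw [h, h4] at h3; exact absurd h3 (by simp)
          exact ra_two hxy (hp x.1 (hrX x hx) y.1 (hrX y hy) h3 h4)
      by_cases hj : ∃ j ∈ X, 3 ≤ M a.1 j
      · obtain ⟨j, hjX, hj3⟩ := hj
        have hij : a.1 ≠ j := by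
          rintro h
          rw [← h, M.diagonal] at hj3
          omega
        refine step (fun b => decide (b = a.1 ∨ b = j)) ?_ (by simp) ?_
        · intro x hx y hy h1 h2
          have hy2 : y ≠ a.1 ∧ y ≠ j := by simpa using h2
          have ht := htri a.1 haX j hjX y hy hij hy2.2.symm hy2.1.symm
          have h3 : M j y = 2 ∧ M a.1 y = 2 := by
            rcases ht with h | h | h
            · omega
            · omega
            · exact h
          have hx2 : x = a.1 ∨ x = j := by simpa using h1
          rcases hx2 with rfl | rfl
          · exact h3.2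
          · exact h3.1
        · intro h1
          refine two_case hD hij N (by omega) (hM _ _) (ra M) _
            ((List.length_filter_le _ _).trans hN) ?_ h1
          intro x hx
          simpa using (List.mem_filter.1 hx).2
      · push Not at hj
        refine step (fun b => decide (b = a.1)) ?_ (by simp) ?_
        · intro x hx y hy h1 h2
          have hx2 : x = a.1 := by simpa using h1
          have hy2 : y ≠ a.1 := by simpa using h2
          subst hx2
          have h3 := hj y hy
          have h4 := hfin _ haX y hy
          have h5 := M.off_diagonal _ _ hy2.symm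
          omega
        · intro h1
          refine ⟨[], by simp, by simp, ?_⟩
          have : exw (fun i j => M i j) ([] : List (List (B × Bool) × B × B × Bool)) = [] := by
            simp [exw]
          rw [this, lval_nil]
          refine one_case M (ra M) a.1 _ ?_ h1
          intro x hx
          simpa using (List.mem_filter.1 hx).2
  intro r hr hrX hr1
  obtain ⟨c, h1, h2, h3⟩ := main r.length r le_rfl hr hrX hr1
  refine ⟨c, h1.trans ?_, fun p hp => (h2 p hp).trans ?_, h3⟩
  · show _ ≤ (N + 1) ^ 2 * bd N N
    apply Nat.mul_le_mul_right
    nlinarith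
  · show _ ≤ (N + 1) ^ 2 * bd N N
    exact Nat.le_mul_of_pos_left _ (by positivity)

end Pool.Agent.L0h63.AL
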